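import Pool.Agent.Helper60.RT.Defs2
import Pool.Agent.Helper60.LT.C3

/-!
# Project RT, block B (second half): `cn_cone`, `cn_cut`
-/

open MeasureTheory Real Set Filter Topology

set_option autoImplicit false

namespace Pool.Agent.Helper60.RT

open Pool.Agent.Helper22.AE
open Pool.Agent.Helper92.GC (dt tp Tq uu tt arc dd sqa m6)
open Pool.Agent.Helper92.DT (m12 IsMul12)
open Pool.Agent.Helper60.LT (Fr Tf xf yf df vf fr ac co Cut BB)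
open Pool.Agent.Helper60.QL (R3 nm pA xA sA TA Cone)

private lemma mem_cn58 (N : ℕ) (k : ℤ × ℤ) : k ∈ cn N ↔ (N : ℤ) ≤ k.1 ∧ k.1 < 2 * N ∧ -k.1 < k.2 ∧ k.2 ≤ k.1 := by
  unfold cn sqa box
  rw [Finset.mem_filter, Finset.mem_filter, Finset.mem_product, Finset.mem_Icc, Finset.mem_Icc]
  push_cast
  constructor
  · rintro ⟨⟨-, h1, h2, h3⟩, h4, h5⟩
    have h0 : 0 < k.1 := by omega
    rw [abs_of_pos h0] at h1 h2
    refine ⟨?_, h2, h4, h5⟩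
    rcases h1 with h1 | h1
    · exact h1
    · rcases abs_cases k.2 with ⟨h6, -⟩ | ⟨h6, -⟩ <;> omega
  · rintro ⟨h1, h2, h4, h5⟩
    have h0 : 0 < k.1 := by omega
    have h6 : |k.2| < 2 * (N : ℤ) := by
      rw [abs_lt]
      constructor <;> omega
    rw [abs_of_pos h0]
    refine ⟨⟨⟨⟨by omega, by omega⟩, ⟨by omega, by omega⟩⟩, Or.inl h1, h2, h6⟩, h4, h5⟩

private lemma cn_pos58 {N : ℕ} {k : ℤ × ℤ} (hk : k ∈ cn N) : 0 < uu 0 k ∧ |tt 0 k| ≤ 1 := by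
  obtain ⟨h1, h2, h4, h5⟩ := (mem_cn58 N k).1 hk
  have h0 : 0 < k.1 := by omega
  have h0' : (0 : ℝ) < k.1 := by exact_mod_cast h0
  have hu : uu 0 k = (k.1 : ℝ) := by
    unfold uu
    rw [zero_mul, add_zero]
  refine ⟨by rw [hu]; exact h0', ?_⟩
  unfold tt
  rw [hu, abs_div, abs_of_pos h0', div_le_one h0', abs_le]
  have a1 : (-(k.1 : ℝ)) < k.2 := by exact_mod_cast h4
  have a2 : (k.2 : ℝ) ≤ k.1 := by exact_mod_cast h5
  exact ⟨a1.le, a2⟩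

theorem cn_cone {N : ℕ} (hN : 1 ≤ N) : Cone N 2 (cn N) ∧ ∀ k ∈ cn N, (N : ℝ) ≤ k.1 ∧ (k.1 : ℝ) < 2 * N ∧ |tt 0 k| ≤ 1 := by
  have hN' : (0 : ℝ) < N := by
    have : 0 < N := hN
    exact_mod_cast this
  have key : ∀ k ∈ cn N, (N : ℝ) ≤ k.1 ∧ (k.1 : ℝ) < 2 * N ∧ |tt 0 k| ≤ 1 := fun k hk => by
    obtain ⟨h1, h2, h4, h5⟩ := (mem_cn58 N k).1 hk
    refine ⟨by exact_mod_cast h1, by exact_mod_cast h2, (cn_pos58 hk).2⟩
  refine ⟨fun k hk => ?_, key⟩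
  obtain ⟨a1, a2, -⟩ := key k hk
  obtain ⟨h1, h2, h4, h5⟩ := (mem_cn58 N k).1 hk
  have b1 : (-(k.1 : ℝ)) < k.2 := by exact_mod_cast h4
  have b2 : (k.2 : ℝ) ≤ k.1 := by exact_mod_cast h5
  refine ⟨by linarith, by linarith, ?_⟩
  rw [abs_le]
  constructor <;> linarith

private lemma cut_arc58 {C : ℝ} {I : Finset (ℤ × ℤ)} (hI : ∀ k ∈ I, 0 < uu 0 k) (hI2 : ∀ k ∈ I, -6 ≤ tt 0 k) (h : Cut C I) (hC : 0 ≤ C)
    {N : ℕ} (hN : 0 < N) (r : ℕ) : Cut (24 ^ 2 * C) (arc 0 I N r) := by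
  classical
  have hN' : (0 : ℝ) < N := by exact_mod_cast hN
  refine LT.cut_inter h hC 2 ![-(12 * r / N - 6), 12 * (r + 1) / N - 6] ![1, -1] ![0, 0] ![true, false] _ fun k => ?_
  unfold arc
  rw [Finset.mem_filter]
  refine and_congr_right fun hk => ?_
  have hu := hI k hk
  have h6 := hI2 k hk
  have e : tt 0 k * uu 0 k = (k.2 : ℝ) := by
    unfold tt
    rw [div_mul_cancel₀ _ hu.ne']
  have eu : uu 0 k = (k.1 : ℝ) := by
    unfold uu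
    rw [zero_mul, add_zero]
  have h7 : 0 ≤ (N : ℝ) * ((tt 0 k + 6) / 12) := mul_nonneg hN'.le (by linarith)
  rw [Nat.floor_eq_iff h7]
  have e1 : (r : ℝ) ≤ (N : ℝ) * ((tt 0 k + 6) / 12) ↔ 12 * r / N - 6 ≤ tt 0 k := by
    rw [sub_le_iff_le_add, div_le_iff₀ hN']
    constructor <;> intro h <;> nlinarith
  have e2 : (N : ℝ) * ((tt 0 k + 6) / 12) < r + 1 ↔ tt 0 k < 12 * (r + 1) / N - 6 := by
    rw [lt_sub_iff_add_lt, lt_div_iff₀ hN']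
    constructor <;> intro h <;> nlinarith
  rw [e1, e2]
  have f1 : -(12 * (r : ℝ) / N - 6) * (k.1 : ℝ) + 1 * (k.2 : ℝ) = (tt 0 k - (12 * r / N - 6)) * uu 0 k := by
    rw [← e, eu]
    ring
  have f2 : (12 * ((r : ℝ) + 1) / N - 6) * (k.1 : ℝ) + (-1) * (k.2 : ℝ) = (12 * (r + 1) / N - 6 - tt 0 k) * uu 0 k := by
    rw [← e, eu]
    ring
  simp only [Fin.forall_fin_two, Matrix.cons_val_zero, Matrix.cons_val_one, if_true, Bool.false_eq_true, if_false]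
  rw [f1, f2, mul_nonneg_iff_of_pos_right hu, mul_pos_iff_of_pos_right hu, sub_nonneg, sub_pos]

/-- arcs of arcs of the cone are cut out by bounded multipliers -/
theorem cn_cut (N : ℕ) : Cut (24 ^ 12) (cn N) ∧ ∀ (a r : ℕ), 1 ≤ a → Cut (24 ^ 12) (arc 0 (cn N) a r) ∧
    ∀ (a' r' : ℕ), 1 ≤ a' → Cut (24 ^ 12) (arc 0 (arc 0 (cn N) a r) a' r') ∧ ∀ (a'' r'' : ℕ), 1 ≤ a'' → Cut (24 ^ 12) (arc 0 (arc 0 (arc 0 (cn N) a r) a' r') a'' r'') := by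
  have h0 : Cut (24 ^ 4) (cn N) := by
    refine LT.cut_poly 4 ![1, -1, 1, 1] ![0, 0, 1, -1] ![(N : ℝ), -(2 * N), 0, 0] ![true, false, false, true] _ fun k => ?_
    rw [mem_cn58]
    simp only [Fin.forall_fin_succ, Matrix.cons_val_zero, Matrix.cons_val_succ, if_true, Bool.false_eq_true, if_false,
      IsEmpty.forall_iff, and_true]
    have c1 : (N : ℤ) ≤ k.1 ↔ (N : ℝ) ≤ 1 * (k.1 : ℝ) + 0 * (k.2 : ℝ) := by
      rw [one_mul, zero_mul, add_zero]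
      exact_mod_cast Iff.rfl
    have c2 : k.1 < 2 * (N : ℤ) ↔ -(2 * (N : ℝ)) < -1 * (k.1 : ℝ) + 0 * (k.2 : ℝ) := by
      have : k.1 < 2 * (N : ℤ) ↔ (k.1 : ℝ) < 2 * (N : ℝ) := by exact_mod_cast Iff.rfl
      rw [this]
      constructor <;> intro h <;> linarith
    have c3 : -k.1 < k.2 ↔ (0 : ℝ) < 1 * (k.1 : ℝ) + 1 * (k.2 : ℝ) := by
      have : -k.1 < k.2 ↔ -(k.1 : ℝ) < (k.2 : ℝ) := by exact_mod_cast Iff.rfl
      rw [this]
      constructor <;> intro h <;> linarith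
    have c4 : k.2 ≤ k.1 ↔ (0 : ℝ) ≤ 1 * (k.1 : ℝ) + -1 * (k.2 : ℝ) := by
      have : k.2 ≤ k.1 ↔ (k.2 : ℝ) ≤ (k.1 : ℝ) := by exact_mod_cast Iff.rfl
      rw [this]
      constructor <;> intro h <;> linarith
    rw [c1, c2, c3, c4]
  have p0 : ∀ k ∈ cn N, 0 < uu 0 k := fun k hk => (cn_pos58 hk).1
  have q0 : ∀ k ∈ cn N, -6 ≤ tt 0 k := fun k hk => by
    have := neg_le_of_abs_le (cn_pos58 hk).2
    linarith
  have sub : ∀ (I : Finset (ℤ × ℤ)) (a r : ℕ), arc 0 I a r ⊆ I := fun I a r => by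
    unfold arc
    exact Finset.filter_subset _ _
  refine ⟨LT.cut_weaken h0 (by norm_num), fun a r ha => ?_⟩
  have h1 := cut_arc58 p0 q0 h0 (by norm_num) ha r
  have p1 : ∀ k ∈ arc 0 (cn N) a r, 0 < uu 0 k := fun k hk => p0 k (sub _ _ _ hk)
  have q1 : ∀ k ∈ arc 0 (cn N) a r, -6 ≤ tt 0 k := fun k hk => q0 k (sub _ _ _ hk)
  refine ⟨LT.cut_weaken h1 (by norm_num), fun a' r' ha' => ?_⟩
  have h2 := cut_arc58 p1 q1 h1 (by norm_num) ha' r'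
  have p2 : ∀ k ∈ arc 0 (arc 0 (cn N) a r) a' r', 0 < uu 0 k := fun k hk => p1 k (sub _ _ _ hk)
  have q2 : ∀ k ∈ arc 0 (arc 0 (cn N) a r) a' r', -6 ≤ tt 0 k := fun k hk => q1 k (sub _ _ _ hk)
  refine ⟨LT.cut_weaken h2 (by norm_num), fun a'' r'' ha'' => ?_⟩
  have h3 := cut_arc58 p2 q2 h2 (by norm_num) ha'' r''
  exact LT.cut_weaken h3 (by norm_num)

end Pool.Agent.Helper60.RT
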